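import Pool.Agent.Y303.EJ.Stm

/-!
Project EJ, step CH: a solution of the perturbed system of the main modes is a chain.
Adapted from `Pool/Agent/Y6/N/P1.lean` and `Pool/Agent/Y6/N/P2.lean` (helper6).
-/

open Set Filter Topology MeasureTheory

set_option autoImplicit false

namespace Pool.Agent.Y255.EJ

open Pool.Agent.Y5 (Y)
open Pool.Agent.Y5.D (vf3)
open Pool.Agent.Y6.N (src ph)
open Pool.Agent.Y303.EJ

/-- Assumptions. -/
structure Gd (η : ℝ) (lm L C ℓ : ℕ → ℝ) (B : ℕ → ℕ → ℝ) (T : ℝ) (x f : ℕ → ℝ → ℝ) : Prop where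
  sq : SeqE η lm L C ℓ B
  nm : Num η lm L C ℓ
  hT : 0 < T
  der : ∀ n, ∀ t ∈ Ico 0 T, HasDerivWithinAt (x n)
      (vf3 L C ℓ B (fun m => x m t) n + f n t) (Ico 0 T) t
  bdd : ∀ T' < T, ∃ Mx, ∀ t ∈ Icc 0 T', ∀ n, L n ^ 10 * |x n t| ≤ Mx
  en : ∀ t ∈ Ico 0 T, ∑' n, x n t ^ 2 ≤ 1
  hf : ∀ n, ∀ t ∈ Ico 0 T, |f n t| ≤ ph lm 0 * |x n t| + ph lm n
  h0 : x 0 0 = 1
  hn : ∀ n, x (n + 1) 0 = 0

lemma ph_pos (lm : ℕ → ℝ) (n : ℕ) : 0 < ph lm n := Real.exp_pos _

section seq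

variable {η : ℝ} {lm L C ℓ : ℕ → ℝ} {B : ℕ → ℕ → ℝ}

lemma sLp (q : Num η lm L C ℓ) (n : ℕ) : 0 < L n := lt_of_lt_of_le one_pos (q.L1 n)

lemma slm (q : Num η lm L C ℓ) (n : ℕ) : 0 < lm n :=
  lt_of_lt_of_le (by norm_num) (q.lm1 n)

lemma sLs (q : Num η lm L C ℓ) (n : ℕ) : 10 ^ 30 * L n ≤ L (n + 1) := by
  refine (q.Ls n).trans ?_
  have h1 := q.d1 (n + 1)
  have h2 := sLp q (n + 1)
  nlinarith

lemma sLpow (q : Num η lm L C ℓ) (n : ℕ) : (10 ^ 30) ^ n ≤ L n := by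
  induction n with
  | zero => simpa using q.L1 0
  | succ n ih =>
    have := sLs q n
    rw [pow_succ]
    linarith

lemma sLinv (q : Num η lm L C ℓ) (n : ℕ) : (L n)⁻¹ ≤ (1 / 2) ^ n := by
  have h := sLpow q n
  have h2 : (2 : ℝ) ^ n ≤ (10 ^ 30) ^ n := by gcongr; norm_num
  rw [one_div, inv_pow]
  exact inv_anti₀ (by positivity) (h2.trans h)

lemma slm8 (s : SeqE η lm L C ℓ B) (q : Num η lm L C ℓ) (n : ℕ) :
    10 ^ 8 * lm n ≤ lm (n + 1) := by
  refine (s.lm_grow n).trans ?_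
  have h1 := q.d1 (n + 1)
  have h0 := q.d0 (n + 1)
  have h2 := slm q (n + 1)
  have h3 : dl η (n + 1) ^ 4 ≤ 1 := pow_le_one₀ h0.le (by linarith)
  nlinarith

lemma slm100 (s : SeqE η lm L C ℓ B) (q : Num η lm L C ℓ) (n : ℕ) :
    100 * lm n ≤ lm (n + 1) := by
  have h := slm8 s q n
  have h1 := slm q n
  linarith

lemma slmmono (s : SeqE η lm L C ℓ B) (q : Num η lm L C ℓ) : Monotone lm := by
  refine monotone_nat_of_le_succ fun n => ?_
  have h := slm8 s q n
  have h1 := slm q n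
  linarith

lemma sC1 (q : Num η lm L C ℓ) (n : ℕ) : C n ≤ 1 := by
  refine (q.C1 n).trans (Real.exp_le_one_iff.2 ?_)
  have := slm q n
  linarith

lemma sℓ (s : SeqE η lm L C ℓ B) (q : Num η lm L C ℓ) (n : ℕ) : ℓ n ≤ L n := by
  have h := q.ℓ1 n
  have h1 := q.d1 n
  have h0 := q.d0 n
  have h2 := sLp q n
  have h3 : dl η n ^ 3 ≤ 1 := pow_le_one₀ h0.le (by linarith)
  have h4 := s.ℓ_nonneg n
  nlinarith

lemma expB (q : Num η lm L C ℓ) (n : ℕ) : Real.exp (-(lm n)) ≤ 1 / 1000 := by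
  have h1 := q.lm1 n
  have h2 := Real.add_one_le_exp (lm n)
  rw [Real.exp_neg, one_div]
  apply inv_anti₀ (by norm_num)
  linarith

lemma sBlo (s : SeqE η lm L C ℓ B) (q : Num η lm L C ℓ) {i n : ℕ} (h : i < n) :
    999 / 1000 ≤ B i n := by
  have h1 := (abs_le.1 (s.B_err i n h)).1
  have h2 := expB q n
  linarith

lemma sBhi (s : SeqE η lm L C ℓ B) (q : Num η lm L C ℓ) {i n : ℕ} (h : i < n) :
    B i n ≤ 1001 / 1000 := by
  have h1 := (abs_le.1 (s.B_err i n h)).2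
  have h2 := expB q n
  linarith

lemma phsum (s : SeqE η lm L C ℓ B) (q : Num η lm L C ℓ) (m : ℕ) :
    Summable (fun j => ph lm (m + j)) ∧ ∑' j, ph lm (m + j) ≤ 2 * ph lm m := by
  have h : ∀ j, ph lm (m + j) ≤ ph lm m * (1 / 2) ^ j := by
    intro j
    induction j with
    | zero => simp
    | succ j ih =>
      have h1 := slm100 s q (m + j)
      have h2 := q.lm1 (m + j)
      have h3 : ph lm (m + (j + 1)) ≤ ph lm (m + j) * (1 / 2) := by
        have e : ph lm (m + (j + 1)) = ph lm (m + j) * Real.exp (lm (m + j) - lm (m + (j + 1))) := by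
          rw [ph, ph, ← Real.exp_add]; congr 1; ring
        rw [e]
        have h4 : Real.exp (lm (m + j) - lm (m + (j + 1))) ≤ 1 / 2 := by
          have h5 : Real.exp (lm (m + j) - lm (m + (j + 1))) ≤ Real.exp (-1) := by
            apply Real.exp_le_exp.2
            have e2 : m + (j + 1) = m + j + 1 := by ring
            rw [e2]
            linarith
          have h6 := Real.exp_neg_one_lt_d9
          linarith
        have := ph_pos lm (m + j)
        gcongr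
      calc ph lm (m + (j + 1)) ≤ ph lm (m + j) * (1 / 2) := h3
        _ ≤ (ph lm m * (1 / 2) ^ j) * (1 / 2) := by gcongr
        _ = _ := by ring
  have hs : Summable (fun j : ℕ => ph lm m * (1 / 2 : ℝ) ^ j) :=
    (summable_geometric_of_lt_one (by norm_num) (by norm_num)).mul_left _
  have h1 : Summable (fun j => ph lm (m + j)) :=
    Summable.of_nonneg_of_le (fun j => (ph_pos _ _).le) h hs
  refine ⟨h1, (h1.tsum_le_tsum h hs).trans ?_⟩
  rw [tsum_mul_left, tsum_geometric_of_lt_one (by norm_num) (by norm_num)]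
  norm_num
  linarith

/-- the strain of the lower modes is small against the errors of the coefficients -/
lemma Lexp (s : SeqE η lm L C ℓ B) (q : Num η lm L C ℓ) (n : ℕ) :
    L n * Real.exp (-(lm (n + 1))) ≤ Real.exp (-(lm (n + 1) / 2)) / 10 ∧
    L n * Real.exp (-(lm (n + 1))) ≤ Real.exp (-(lm 0)) := by
  have h1 : L n ≤ Real.exp (lm n) := by
    refine (q.QL n n (by omega)).trans ?_
    unfold Q
    apply Real.exp_le_exp.2
    have h2 := q.d1 n
    have h3 := slm q n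
    have h4 : dl η n * lm n ≤ 1 / 100 * lm n := by gcongr
    linarith
  have h2 := slm8 s q n
  have h3 := q.lm1 n
  have h4 := q.lm1 0
  have h5 : lm 0 ≤ lm n := slmmono s q (Nat.zero_le n)
  constructor
  · have h6 : (10 : ℝ) ≤ Real.exp (lm n) := by
      have := Real.add_one_le_exp (lm n)
      linarith
    have h7 : Real.exp (-(lm (n + 1) / 2)) = Real.exp (lm n) * Real.exp (-(lm (n + 1) / 2) - lm n) := by
      rw [← Real.exp_add]; congr 1; ring
    calc L n * Real.exp (-(lm (n + 1))) ≤ Real.exp (lm n) * Real.exp (-(lm (n + 1))) := by gcongr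
      _ = Real.exp (lm n - lm (n + 1)) := by rw [← Real.exp_add]; congr 1
      _ ≤ Real.exp (-(lm (n + 1) / 2) - lm n) := by
          apply Real.exp_le_exp.2
          linarith
      _ ≤ _ := by
          rw [h7]
          have := Real.exp_pos (-(lm (n + 1) / 2) - lm n)
          nlinarith
  · calc L n * Real.exp (-(lm (n + 1))) ≤ Real.exp (lm n) * Real.exp (-(lm (n + 1))) := by gcongr
      _ = Real.exp (lm n - lm (n + 1)) := by rw [← Real.exp_add]; congr 1
      _ ≤ _ := by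
          apply Real.exp_le_exp.2
          linarith

lemma rate (s : SeqE η lm L C ℓ B) (q : Num η lm L C ℓ) (m : ℕ) :
    (∑ i ∈ Finset.range m, L i) * Real.exp (-(lm m)) + ph lm 0 ≤ e0 lm := by
  have h4 := q.lm1 0
  have h0 : 10 * Real.exp (-(lm 0)) ≤ Real.exp (-(lm 0 / 2)) := by
    have h6 : (10 : ℝ) ≤ Real.exp (lm 0 / 2) := by
      have := Real.add_one_le_exp (lm 0 / 2)
      linarith
    have h7 : Real.exp (-(lm 0 / 2)) = Real.exp (lm 0 / 2) * Real.exp (-(lm 0)) := by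
      rw [← Real.exp_add]; congr 1; ring
    rw [h7]
    have := Real.exp_pos (-(lm 0))
    gcongr
  have h1 : (∑ i ∈ Finset.range m, L i) * Real.exp (-(lm m)) ≤ 101 / 100 * Real.exp (-(lm 0)) := by
    rcases m with _ | m
    · simp
      positivity
    · have h2 := q.Lsum m
      have h3 := (Lexp s q m).2
      calc (∑ i ∈ Finset.range (m + 1), L i) * Real.exp (-(lm (m + 1)))
          ≤ (101 / 100 * L m) * Real.exp (-(lm (m + 1))) := by gcongr
        _ = 101 / 100 * (L m * Real.exp (-(lm (m + 1)))) := by ring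
        _ ≤ _ := by gcongr
  have h5 := Real.exp_pos (-(lm 0))
  unfold e0 ph
  linarith

end seq

namespace Gd

variable {η : ℝ} {lm L C ℓ : ℕ → ℝ} {B : ℕ → ℕ → ℝ} {T : ℝ} {x f : ℕ → ℝ → ℝ}

lemma cont (g : Gd η lm L C ℓ B T x f) (n : ℕ) : ContinuousOn (x n) (Ico 0 T) :=
  fun t ht => (g.der n t ht).continuousWithinAt

lemma derivAt (g : Gd η lm L C ℓ B T x f) (n : ℕ) {t : ℝ} (ht : t ∈ Ioo 0 T) :
    HasDerivAt (x n) (vf3 L C ℓ B (fun m => x m t) n + f n t) t :=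
  (g.der n t ⟨ht.1.le, ht.2⟩).hasDerivAt (Ico_mem_nhds ht.1 ht.2)

/-- pointwise bound -/
lemma bd (g : Gd η lm L C ℓ B T x f) {T' : ℝ} (hT' : T' < T) :
    ∃ K, 1 ≤ K ∧ ∀ t ∈ Icc 0 T', ∀ n, |x n t| ≤ K * (L n ^ 10)⁻¹ := by
  obtain ⟨Mx, h⟩ := g.bdd T' hT'
  refine ⟨max Mx 1, le_max_right _ _, fun t ht n => ?_⟩
  have hp : 0 < L n ^ 10 := pow_pos (sLp g.nm n) _
  rw [← div_eq_mul_inv, le_div_iff₀ hp, mul_comm]
  exact (h t ht n).trans (le_max_left _ _)

lemma sumsq {K t : ℝ} (q : Num η lm L C ℓ) (h : ∀ n, |x n t| ≤ K * (L n ^ 10)⁻¹) (m : ℕ) :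
    Summable fun j : ℕ => x (m + j) t ^ 2 := by
  have h2 : Summable fun j : ℕ => K ^ 2 * (1 / 2 : ℝ) ^ j :=
    (summable_geometric_of_lt_one (by norm_num) (by norm_num)).mul_left _
  refine Summable.of_nonneg_of_le (fun j => sq_nonneg _) (fun j => ?_) h2
  have h3 := h (m + j)
  have hL1 := q.L1 (m + j)
  have hLp := sLp q (m + j)
  have h4 : |x (m + j) t| ^ 2 ≤ (K * (L (m + j) ^ 10)⁻¹) ^ 2 := by gcongr
  rw [sq_abs] at h4
  refine h4.trans ?_
  rw [mul_pow]
  have h5 : ((L (m + j) ^ 10)⁻¹) ^ 2 ≤ (1 / 2 : ℝ) ^ j := by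
    have h6 := sLinv q (m + j)
    have h7 : ((L (m + j) ^ 10)⁻¹) ^ 2 = ((L (m + j))⁻¹) ^ 20 := by
      rw [← inv_pow, ← pow_mul]
    rw [h7]
    have h8 : (L (m + j))⁻¹ ≤ 1 := inv_le_one_of_one_le₀ hL1
    calc ((L (m + j))⁻¹) ^ 20 ≤ ((L (m + j))⁻¹) ^ 1 :=
          pow_le_pow_of_le_one (by positivity) h8 (by norm_num)
      _ ≤ (1 / 2) ^ (m + j) := by rw [pow_one]; exact h6
      _ ≤ (1 / 2) ^ j := pow_le_pow_of_le_one (by norm_num) (by norm_num) (by omega)
  gcongr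

lemma summ (g : Gd η lm L C ℓ B T x f) {t : ℝ} (ht : t ∈ Ico 0 T) (m : ℕ) :
    Summable fun j : ℕ => x (m + j) t ^ 2 := by
  obtain ⟨K, _, hK⟩ := g.bd ht.2
  exact sumsq g.nm (hK t ⟨ht.1, le_rfl⟩) m

lemma Y_nonneg (m : ℕ) (t : ℝ) : 0 ≤ Y x m t := tsum_nonneg fun _ => sq_nonneg _

lemma Y_succ (g : Gd η lm L C ℓ B T x f) {t : ℝ} (ht : t ∈ Ico 0 T) (m : ℕ) :
    Y x m t = x m t ^ 2 + Y x (m + 1) t := by
  rw [Y, (g.summ ht m).tsum_eq_zero_add]
  congr 1
  rw [Y]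
  congr 1; ext j; congr 2; ring

lemma sq_le (g : Gd η lm L C ℓ B T x f) {t : ℝ} (ht : t ∈ Ico 0 T) {m n : ℕ} (h : m ≤ n) :
    x n t ^ 2 ≤ Y x m t := by
  obtain ⟨k, rfl⟩ := Nat.exists_eq_add_of_le h
  exact (g.summ ht m).le_tsum k fun j _ => sq_nonneg _

lemma Y_anti (g : Gd η lm L C ℓ B T x f) {t : ℝ} (ht : t ∈ Ico 0 T) (m : ℕ) :
    Y x (m + 1) t ≤ Y x m t := by
  rw [g.Y_succ ht m]; nlinarith [sq_nonneg (x m t)]

lemma Y_le_one (g : Gd η lm L C ℓ B T x f) {t : ℝ} (ht : t ∈ Ico 0 T) (m : ℕ) :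
    Y x m t ≤ 1 := by
  induction m with
  | zero => simpa [Y] using g.en t ht
  | succ m ih => exact (g.Y_anti ht m).trans ih

lemma abs_le_sqrt (g : Gd η lm L C ℓ B T x f) {t : ℝ} (ht : t ∈ Ico 0 T) {m n : ℕ}
    (h : m ≤ n) : |x n t| ≤ √(Y x m t) := Real.abs_le_sqrt (g.sq_le ht h)

lemma abs_le_one (g : Gd η lm L C ℓ B T x f) {t : ℝ} (ht : t ∈ Ico 0 T) (n : ℕ) :
    |x n t| ≤ 1 := by
  refine (g.abs_le_sqrt ht (le_refl n)).trans ?_
  exact Real.sqrt_le_one.2 (g.Y_le_one ht n)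

/-- weighted tails -/
lemma tsB (g : Gd η lm L C ℓ B T x f) {t : ℝ} (ht : t ∈ Ico 0 T) {i m : ℕ} (him : i < m) :
    Summable (fun j : ℕ => B i (m + j) * x (m + j) t ^ 2) ∧
    0 ≤ ∑' j : ℕ, B i (m + j) * x (m + j) t ^ 2 ∧
    ∑' j : ℕ, B i (m + j) * x (m + j) t ^ 2 ≤ 1001 / 1000 * Y x m t := by
  have hS := g.summ ht m
  have hlo : ∀ j, 999 / 1000 ≤ B i (m + j) := fun j => sBlo g.sq g.nm (by omega)
  have hhi : ∀ j, B i (m + j) ≤ 1001 / 1000 := fun j => sBhi g.sq g.nm (by omega)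
  have h1 : Summable (fun j : ℕ => B i (m + j) * x (m + j) t ^ 2) := by
    refine Summable.of_norm_bounded (hS.mul_left (1001 / 1000)) fun j => ?_
    rw [Real.norm_eq_abs, abs_mul, abs_of_nonneg (sq_nonneg (x (m + j) t)),
      abs_of_nonneg (by linarith [hlo j])]
    have := hhi j
    gcongr
  refine ⟨h1, tsum_nonneg fun j => mul_nonneg (by linarith [hlo j]) (sq_nonneg _), ?_⟩
  rw [Y, ← tsum_mul_left]
  refine h1.tsum_le_tsum (fun j => ?_) (hS.mul_left _)
  have := hhi j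
  gcongr

/-- the error of the weighted tails -/
lemma tsE (g : Gd η lm L C ℓ B T x f) {t : ℝ} (ht : t ∈ Ico 0 T) {i m : ℕ} (him : i < m) :
    |∑' j : ℕ, B i (m + j) * x (m + j) t ^ 2 - Y x m t| ≤ Real.exp (-(lm m)) * Y x m t := by
  have hS := g.summ ht m
  have h1 := (g.tsB ht him).1
  have hb : ∀ j, |B i (m + j) * x (m + j) t ^ 2 - x (m + j) t ^ 2| ≤
      Real.exp (-(lm m)) * x (m + j) t ^ 2 := by
    intro j
    have e : B i (m + j) * x (m + j) t ^ 2 - x (m + j) t ^ 2 =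
        (B i (m + j) - 1) * x (m + j) t ^ 2 := by ring
    rw [e, abs_mul, abs_of_nonneg (sq_nonneg (x (m + j) t))]
    have h2 := g.sq.B_err i (m + j) (by omega)
    have h3 : Real.exp (-(lm (m + j))) ≤ Real.exp (-(lm m)) := by
      apply Real.exp_le_exp.2
      have := slmmono g.sq g.nm (Nat.le_add_right m j)
      linarith
    gcongr
    exact h2.trans h3
  rw [Y, ← h1.tsum_sub hS, ← tsum_mul_left]
  have h4 : Summable fun j => B i (m + j) * x (m + j) t ^ 2 - x (m + j) t ^ 2 := h1.sub hS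
  have h5 := hS.mul_left (Real.exp (-(lm m)))
  rw [abs_le]
  constructor
  · rw [← tsum_neg]
    exact h5.neg.tsum_le_tsum (fun j => (abs_le.1 (hb j)).1) h4
  · exact h4.tsum_le_tsum (fun j => (abs_le.1 (hb j)).2) h5

/-- strain sum -/
lemma strain (g : Gd η lm L C ℓ B T x f) {t : ℝ} (ht : t ∈ Ico 0 T) {m k : ℕ} (hmk : m ≤ k) :
    |∑ i ∈ Finset.range m, L i * B i k * x i t - Sg L x m t| ≤
      (∑ i ∈ Finset.range m, L i) * Real.exp (-(lm k)) := by
  rw [Sg, ← Finset.sum_sub_distrib, Finset.sum_mul]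
  refine (Finset.abs_sum_le_sum_abs _ _).trans ?_
  refine Finset.sum_le_sum fun i hi => ?_
  have hi' : i < k := by have := Finset.mem_range.1 hi; omega
  have hLp := sLp g.nm i
  have e : L i * B i k * x i t - L i * x i t = L i * ((B i k - 1) * x i t) := by ring
  rw [e, abs_mul, abs_mul, abs_of_pos hLp]
  have h1 := g.sq.B_err i k hi'
  have h2 := g.abs_le_one ht i
  have h3 := Real.exp_pos (-(lm k))
  calc L i * (|B i k - 1| * |x i t|) ≤ L i * (Real.exp (-(lm k)) * 1) := by gcongr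
    _ = _ := by ring

/-- the flux -/
noncomputable def Fl (L C : ℕ → ℝ) (X : ℕ → ℝ) (n : ℕ) : ℝ :=
  if n = 0 then 0 else L (n - 1) * C (n - 1) * X (n - 1) ^ 2 * X n

lemma Fl_src (t : ℝ) (n : ℕ) : Fl L C (fun i => x i t) n = src L C x n t * x n t := by
  unfold Fl src
  split_ifs <;> ring

lemma xvf (t : ℝ) (N : ℕ) : x N t * vf3 L C ℓ B (fun i => x i t) N = -(ℓ N * x N t ^ 2)
        + Fl L C (fun i => x i t) N - Fl L C (fun i => x i t) (N + 1)
        + x N t ^ 2 * ∑ i ∈ Finset.range N, L i * B i N * x i t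
        - L N * x N t * ∑' l : ℕ, B N (N + 1 + l) * x (N + 1 + l) t ^ 2 := by
  have hN1 : ¬ (N + 1 = 0) := Nat.succ_ne_zero N
  unfold vf3 Fl
  rw [if_neg hN1]
  have e5 : N + 1 - 1 = N := by omega
  rw [e5]
  split_ifs <;> ring

/-- finite sums -/
lemma part (g : Gd η lm L C ℓ B T x f) {t : ℝ} (ht : t ∈ Ico 0 T) (m k : ℕ) :
    ∑ j ∈ Finset.range k, x (m + j) t * vf3 L C ℓ B (fun i => x i t) (m + j) =
      -(∑ j ∈ Finset.range k, ℓ (m + j) * x (m + j) t ^ 2)
      + Fl L C (fun i => x i t) m - Fl L C (fun i => x i t) (m + k)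
      + ∑ j ∈ Finset.range k, x (m + j) t ^ 2 * ∑ i ∈ Finset.range m, L i * B i (m + j) * x i t
      - ∑ i ∈ Finset.range k, L (m + i) * x (m + i) t *
          ∑' l : ℕ, B (m + i) (m + k + l) * x (m + k + l) t ^ 2 := by
  induction k with
  | zero => simp
  | succ k ih =>
    rw [Finset.sum_range_succ, ih, Finset.sum_range_succ, Finset.sum_range_succ (fun j =>
      x (m + j) t ^ 2 * ∑ i ∈ Finset.range m, L i * B i (m + j) * x i t)]
    set N := m + k with hN
    have e1 : m + (k + 1) = N + 1 := by omega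
    rw [e1]
    have h2 : ∀ i ∈ Finset.range k, L (m + i) * x (m + i) t *
          ∑' l : ℕ, B (m + i) (N + l) * x (N + l) t ^ 2
        = L (m + i) * B (m + i) N * x (m + i) t * x N t ^ 2 + L (m + i) * x (m + i) t *
          ∑' l : ℕ, B (m + i) (N + 1 + l) * x (N + 1 + l) t ^ 2 := by
      intro i hi
      have hi' := Finset.mem_range.1 hi
      rw [(g.tsB ht (i := m + i) (m := N) (by omega)).1.tsum_eq_zero_add]
      have e : ∑' l : ℕ, B (m + i) (N + (l + 1)) * x (N + (l + 1)) t ^ 2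
          = ∑' l : ℕ, B (m + i) (N + 1 + l) * x (N + 1 + l) t ^ 2 := by
        refine tsum_congr fun l => ?_
        have : N + (l + 1) = N + 1 + l := by omega
        rw [this]
      rw [e, add_zero]
      ring
    rw [Finset.sum_congr rfl h2, Finset.sum_add_distrib]
    rw [Finset.sum_range_succ (fun i => L (m + i) * x (m + i) t *
          ∑' l : ℕ, B (m + i) (N + 1 + l) * x (N + 1 + l) t ^ 2)]
    have h3 : ∑ i ∈ Finset.range N, L i * B i N * x i t
        = ∑ i ∈ Finset.range m, L i * B i N * x i t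
          + ∑ i ∈ Finset.range k, L (m + i) * B (m + i) N * x (m + i) t := by
      rw [hN, Finset.sum_range_add]
    have h4 := xvf (L := L) (C := C) (ℓ := ℓ) (B := B) (x := x) t N
    rw [← hN, h4, h3, ← Finset.sum_mul]
    ring

lemma xb1 {K y a : ℝ} (hK : 1 ≤ K) (hy0 : 0 < y) (hy1 : y ≤ 1) (h : |a| ≤ K * y ^ 10) :
    |a| ≤ K * y := by
  refine h.trans ?_
  gcongr
  calc y ^ 10 ≤ y ^ 1 := pow_le_pow_of_le_one hy0.le hy1 (by norm_num)
    _ = y := pow_one y

lemma Flb {K t : ℝ} (q : Num η lm L C ℓ) (hK : 1 ≤ K)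
    (h : ∀ n, |x n t| ≤ K * (L n ^ 10)⁻¹) (n : ℕ) :
    |Fl L C (fun i => x i t) n| ≤ K ^ 3 * (L n)⁻¹ := by
  unfold Fl
  split_ifs with h0
  · have := sLp q n
    rw [abs_zero]; positivity
  · have hL := q.L1 (n - 1)
    have hLp := sLp q (n - 1)
    have hLn := q.L1 n
    have hLnp := sLp q n
    have hC := sC1 q (n - 1)
    have hCp := q.C0 (n - 1)
    rw [abs_mul, abs_mul, abs_mul, abs_pow, abs_of_pos hLp, abs_of_pos hCp]
    have h1 := h (n - 1)
    have h2 := h n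
    have e1 : L (n - 1) * ((L (n - 1) ^ 10)⁻¹) ^ 2 ≤ 1 := by
      rw [← inv_pow, ← pow_mul]
      have : (L (n - 1))⁻¹ ≤ 1 := inv_le_one_of_one_le₀ hL
      calc L (n - 1) * ((L (n - 1))⁻¹) ^ (10 * 2)
          ≤ L (n - 1) * ((L (n - 1))⁻¹) ^ 1 :=
            mul_le_mul_of_nonneg_left
              (pow_le_pow_of_le_one (by positivity) this (by norm_num)) hLp.le
        _ = 1 := by rw [pow_one]; exact mul_inv_cancel₀ hLp.ne'
    have e2 : (L n ^ 10)⁻¹ ≤ (L n)⁻¹ := by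
      apply inv_anti₀ hLnp
      exact le_self_pow₀ hLn (by norm_num)
    calc L (n - 1) * C (n - 1) * |x (n - 1) t| ^ 2 * |x n t|
        ≤ L (n - 1) * 1 * (K * (L (n - 1) ^ 10)⁻¹) ^ 2 * (K * (L n ^ 10)⁻¹) := by gcongr
      _ = (L (n - 1) * ((L (n - 1) ^ 10)⁻¹) ^ 2) * K ^ 3 * (L n ^ 10)⁻¹ := by ring
      _ ≤ 1 * K ^ 3 * (L n)⁻¹ := by gcongr
      _ = _ := by ring

lemma Lxb {K t : ℝ} (q : Num η lm L C ℓ) (hK : 1 ≤ K)
    (h : ∀ n, |x n t| ≤ K * (L n ^ 10)⁻¹) (n : ℕ) : L n * |x n t| ≤ K * (L n)⁻¹ := by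
  have hL := q.L1 n
  have hLp := sLp q n
  have h1 := h n
  calc L n * |x n t| ≤ L n * (K * (L n ^ 10)⁻¹) := by gcongr
    _ ≤ L n * (K * ((L n)⁻¹ * (L n)⁻¹)) := by
        gcongr
        rw [← mul_inv]
        apply inv_anti₀ (by positivity)
        calc L n * L n = L n ^ 2 := by ring
          _ ≤ L n ^ 10 := pow_le_pow_right₀ hL (by norm_num)
    _ = K * (L n)⁻¹ * (L n * (L n)⁻¹) := by ring
    _ = _ := by rw [mul_inv_cancel₀ hLp.ne', mul_one]

lemma geo2 (k : ℕ) : ∑ i ∈ Finset.range k, ((1 : ℝ) / 2) ^ i ≤ 2 := by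
  have h := (summable_geometric_of_lt_one (r := (1 : ℝ) / 2) (by norm_num) (by norm_num))
  have h2 := h.sum_le_tsum (Finset.range k) (fun i _ => by positivity)
  rw [tsum_geometric_of_lt_one (by norm_num) (by norm_num)] at h2
  norm_num at h2 ⊢
  exact h2

lemma Ub {K t : ℝ} (q : Num η lm L C ℓ) (hK : 1 ≤ K)
    (h : ∀ n, |x n t| ≤ K * (L n ^ 10)⁻¹) (m k : ℕ) :
    ∑ i ∈ Finset.range k, L (m + i) * |x (m + i) t| ≤ 2 * K := by
  calc ∑ i ∈ Finset.range k, L (m + i) * |x (m + i) t|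
      ≤ ∑ i ∈ Finset.range k, K * (1 / 2) ^ i := by
        refine Finset.sum_le_sum fun i _ => ?_
        refine (Lxb q hK h (m + i)).trans ?_
        gcongr
        exact (sLinv q (m + i)).trans
          (pow_le_pow_of_le_one (by norm_num) (by norm_num) (by omega))
    _ = K * ∑ i ∈ Finset.range k, (1 / 2) ^ i := by rw [Finset.mul_sum]
    _ ≤ K * 2 := by gcongr; exact geo2 k
    _ = _ := by ring

lemma Sg_le {K t : ℝ} (q : Num η lm L C ℓ) (hK : 1 ≤ K)
    (h : ∀ n, |x n t| ≤ K * (L n ^ 10)⁻¹) (m : ℕ) : |Sg L x m t| ≤ 2 * K := by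
  have h1 := Ub q hK h 0 m
  unfold Sg
  refine (Finset.abs_sum_le_sum_abs _ _).trans ?_
  refine le_trans (le_of_eq ?_) h1
  refine Finset.sum_congr rfl fun i _ => ?_
  rw [abs_mul, abs_of_pos (sLp q i), zero_add]

lemma strain_le (g : Gd η lm L C ℓ B T x f) {K t : ℝ} (ht : t ∈ Ico 0 T) (hK : 1 ≤ K)
    (h : ∀ n, |x n t| ≤ K * (L n ^ 10)⁻¹) (m k : ℕ) (hmk : m ≤ k) :
    |∑ i ∈ Finset.range m, L i * B i k * x i t| ≤ 3 * K := by
  have h1 := g.strain ht hmk
  have h2 := Sg_le g.nm hK h m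
  have h3 := rate g.sq g.nm m
  have h4 : e0 lm ≤ 1 := by
    unfold e0
    have h5 := expB g.nm 0
    have h6 := g.nm.lm1 0
    have h7 : Real.exp (-(lm 0 / 2)) ≤ 1 / 2 := by
      have h8 := Real.add_one_le_exp (lm 0 / 2)
      rw [Real.exp_neg, one_div]
      apply inv_anti₀ (by norm_num)
      linarith
    linarith
  have h5 : Real.exp (-(lm k)) ≤ Real.exp (-(lm m)) := by
    apply Real.exp_le_exp.2
    have := slmmono g.sq g.nm hmk
    linarith
  have h6 : 0 ≤ ∑ i ∈ Finset.range m, L i := Finset.sum_nonneg fun i _ => (sLp g.nm i).le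
  have h7 : (∑ i ∈ Finset.range m, L i) * Real.exp (-(lm k)) ≤
      (∑ i ∈ Finset.range m, L i) * Real.exp (-(lm m)) := by gcongr
  have h8 := ph_pos lm 0
  have h9 := abs_sub_abs_le_abs_sub (∑ i ∈ Finset.range m, L i * B i k * x i t) (Sg L x m t)
  linarith

/-- bound for the terms -/
lemma vb (g : Gd η lm L C ℓ B T x f) {K t : ℝ} (ht : t ∈ Ico 0 T) (hK : 1 ≤ K)
    (h : ∀ n, |x n t| ≤ K * (L n ^ 10)⁻¹) (n : ℕ) :
    |x n t * (vf3 L C ℓ B (fun i => x i t) n + f n t)| ≤ 12 * K ^ 3 * (L n)⁻¹ := by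
  have q := g.nm
  have hL := q.L1 n
  have hLp := sLp q n
  set y := (L n)⁻¹ with hy
  have hy0 : 0 < y := by positivity
  have hy1 : y ≤ 1 := inv_le_one_of_one_le₀ hL
  have hLy : L n * y = 1 := mul_inv_cancel₀ hLp.ne'
  have hx : |x n t| ≤ K * y ^ 10 := by rw [hy, inv_pow]; exact h n
  have hx1 : |x n t| ≤ K * y := xb1 hK hy0 hy1 hx
  have hx2 : |x n t| ≤ 1 := g.abs_le_one ht n
  have hK3 : K ≤ K ^ 3 := le_self_pow₀ hK (by norm_num)
  have hKy : 0 < K ^ 3 * y := by positivity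
  have hLx : L n * |x n t| ≤ K * y := Lxb q hK h n
  rw [mul_add, xvf]
  have t1 : |ℓ n * x n t ^ 2| ≤ K ^ 3 * y := by
    rw [abs_mul, abs_pow, abs_of_nonneg (g.sq.ℓ_nonneg n)]
    calc ℓ n * |x n t| ^ 2 ≤ L n * |x n t| ^ 2 := by gcongr; exact sℓ g.sq q n
      _ = L n * |x n t| * |x n t| := by ring
      _ ≤ K * y * 1 := by gcongr
      _ ≤ K ^ 3 * y := by rw [mul_one]; gcongr
  have t2 := Flb q hK h n
  have t3 : |Fl L C (fun i => x i t) (n + 1)| ≤ K ^ 3 * y := by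
    refine (Flb q hK h (n + 1)).trans ?_
    have : (L (n + 1))⁻¹ ≤ y := inv_anti₀ hLp (q.Lmono (Nat.le_succ n))
    gcongr
  have t4 : |x n t ^ 2 * ∑ i ∈ Finset.range n, L i * B i n * x i t| ≤ 3 * (K ^ 3 * y) := by
    rw [abs_mul, abs_pow]
    have h1 := g.strain_le ht hK h n n (le_refl n)
    calc |x n t| ^ 2 * |∑ i ∈ Finset.range n, L i * B i n * x i t|
        ≤ |x n t| ^ 2 * (3 * K) := by gcongr
      _ = |x n t| * |x n t| * (3 * K) := by ring
      _ ≤ (K * y) * 1 * (3 * K) := by gcongr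
      _ = 3 * (K ^ 2 * y) := by ring
      _ ≤ 3 * (K ^ 3 * y) := by
          have : K ^ 2 ≤ K ^ 3 := pow_le_pow_right₀ hK (by norm_num)
          gcongr
  have t5 : |L n * x n t * ∑' l : ℕ, B n (n + 1 + l) * x (n + 1 + l) t ^ 2|
      ≤ 2 * (K ^ 3 * y) := by
    have h1 := g.tsB ht (i := n) (m := n + 1) (by omega)
    have h2 := g.Y_le_one ht (n + 1)
    rw [abs_mul, abs_mul, abs_of_pos hLp, abs_of_nonneg h1.2.1]
    calc L n * |x n t| * ∑' l : ℕ, B n (n + 1 + l) * x (n + 1 + l) t ^ 2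
        ≤ (K * y) * (1001 / 1000 * 1) := by
          gcongr
          · exact h1.2.1
          · exact h1.2.2.trans (by gcongr)
      _ ≤ 2 * (K * y) := by nlinarith
      _ ≤ 2 * (K ^ 3 * y) := by gcongr
  have t6 : |x n t * f n t| ≤ 2 * (K ^ 3 * y) := by
    rw [abs_mul]
    have h1 := g.hf n t ht
    have h2 : ph lm 0 ≤ 1 := Real.exp_le_one_iff.2 (by have := slm q 0; linarith)
    have h3 : ph lm n ≤ 1 := Real.exp_le_one_iff.2 (by have := slm q n; linarith)
    have h4 : |f n t| ≤ 2 := by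
      have := ph_pos lm 0
      have : ph lm 0 * |x n t| ≤ 1 * 1 := by gcongr
      linarith
    calc |x n t| * |f n t| ≤ (K * y) * 2 := by gcongr
      _ = 2 * (K * y) := by ring
      _ ≤ 2 * (K ^ 3 * y) := by gcongr
  rw [abs_le] at *
  constructor <;> linarith [t1.1, t1.2, t2.1, t2.2, t3.1, t3.2, t4.1, t4.2, t5.1, t5.2, t6.1, t6.2]

lemma Yb {K t : ℝ} (q : Num η lm L C ℓ) (hK : 1 ≤ K)
    (h : ∀ n, |x n t| ≤ K * (L n ^ 10)⁻¹) (m : ℕ) : Y x m t ≤ 2 * K ^ 2 * (1 / 2) ^ m := by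
  have h2 : Summable fun j : ℕ => K ^ 2 * (1 / 2) ^ m * (1 / 2 : ℝ) ^ j :=
    (summable_geometric_of_lt_one (by norm_num) (by norm_num)).mul_left _
  have h1 : ∀ j, x (m + j) t ^ 2 ≤ K ^ 2 * (1 / 2) ^ m * (1 / 2 : ℝ) ^ j := by
    intro j
    have hL1 := q.L1 (m + j)
    have hLp := sLp q (m + j)
    have h3 : |x (m + j) t| ≤ K * (L (m + j))⁻¹ := by
      refine xb1 hK (by positivity) (inv_le_one_of_one_le₀ hL1) ?_
      rw [inv_pow]; exact h (m + j)
    have h4 : |x (m + j) t| ^ 2 ≤ (K * (L (m + j))⁻¹) ^ 2 := by gcongr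
    rw [sq_abs] at h4
    refine h4.trans ?_
    rw [mul_pow, mul_assoc (K ^ 2), ← pow_add]
    gcongr
    calc ((L (m + j))⁻¹) ^ 2 ≤ ((L (m + j))⁻¹) ^ 1 :=
          pow_le_pow_of_le_one (by positivity) (inv_le_one_of_one_le₀ hL1) (by norm_num)
      _ ≤ (1 / 2) ^ (m + j) := by rw [pow_one]; exact sLinv q (m + j)
  have h3 := (sumsq q h m).tsum_le_tsum h1 h2
  rw [tsum_mul_left, tsum_geometric_of_lt_one (by norm_num) (by norm_num)] at h3
  rw [Y]
  refine h3.trans (le_of_eq ?_)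
  norm_num
  ring

/-- the dissipation is summable -/
lemma Vsum (g : Gd η lm L C ℓ B T x f) {t : ℝ} (ht : t ∈ Ico 0 T) (m : ℕ) :
    Summable fun j : ℕ => ℓ (m + j) * x (m + j) t ^ 2 := by
  obtain ⟨K, hK, hb⟩ := g.bd ht.2
  have hh := hb t ⟨ht.1, le_rfl⟩
  have h2 : Summable fun j : ℕ => K * (1 / 2 : ℝ) ^ j :=
    (summable_geometric_of_lt_one (by norm_num) (by norm_num)).mul_left _
  refine Summable.of_nonneg_of_le (fun j => mul_nonneg (g.sq.ℓ_nonneg _) (sq_nonneg _))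
    (fun j => ?_) h2
  have h1 := Lxb g.nm hK hh (m + j)
  have h3 := g.abs_le_one ht (m + j)
  have h4 := sℓ g.sq g.nm (m + j)
  have h5 : (L (m + j))⁻¹ ≤ (1 / 2) ^ j := (sLinv g.nm (m + j)).trans
          (pow_le_pow_of_le_one (by norm_num) (by norm_num) (by omega))
  have h6 := sLp g.nm (m + j)
  rw [← sq_abs (x (m + j) t)]
  calc ℓ (m + j) * |x (m + j) t| ^ 2 ≤ L (m + j) * |x (m + j) t| ^ 2 := by gcongr
    _ = L (m + j) * |x (m + j) t| * |x (m + j) t| := by ring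
    _ ≤ K * (L (m + j))⁻¹ * 1 := by gcongr
    _ ≤ K * (1 / 2 : ℝ) ^ j := by rw [mul_one]; gcongr

/-- derivative of the tail energy -/
lemma Yder (g : Gd η lm L C ℓ B T x f) (m : ℕ) {t : ℝ} (ht : t ∈ Ico 0 T) :
    ∃ D, HasDerivWithinAt (Y x m) D (Ico 0 T) t ∧
      |D - 2 * (Sg L x m t * Y x m t + src L C x m t * x m t -
        ∑' j, ℓ (m + j) * x (m + j) t ^ 2)| ≤
        2 * e0 lm * Y x m t + 4 * ph lm m * √(Y x m t) := by
  have q := g.nm
  obtain ⟨T', ht', hT'⟩ := exists_between ht.2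
  obtain ⟨K, hK, hb⟩ := g.bd hT'
  have hsub : Icc 0 T' ⊆ Ico 0 T := fun τ hτ => ⟨hτ.1, hτ.2.trans_lt hT'⟩
  have htI : t ∈ Icc 0 T' := ⟨ht.1, ht'.le⟩
  have hh := hb t htI
  set F : ℕ → ℝ → ℝ := fun j τ => x (m + j) τ * (vf3 L C ℓ B (fun i => x i τ) (m + j)
    + f (m + j) τ) with hF
  have hgeo : Summable fun j : ℕ => 24 * K ^ 3 * (1 / 2 : ℝ) ^ j :=
    (summable_geometric_of_lt_one (by norm_num) (by norm_num)).mul_left _
  have hFb : ∀ j, ∀ τ ∈ Icc 0 T', |2 * F j τ| ≤ 24 * K ^ 3 * (1 / 2 : ℝ) ^ j := by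
    intro j τ hτ
    rw [abs_mul, abs_two]
    have h1 := g.vb (hsub hτ) hK (hb τ hτ) (m + j)
    have h2 : (L (m + j))⁻¹ ≤ (1 / 2) ^ j := (sLinv q (m + j)).trans
          (pow_le_pow_of_le_one (by norm_num) (by norm_num) (by omega))
    calc 2 * |F j τ| ≤ 2 * (12 * K ^ 3 * (1 / 2) ^ j) := by
          gcongr; exact h1.trans (by gcongr)
      _ = _ := by ring
  have hd := Pool.Agent.Y274.TAIL.hasDerivWithinAt_tsum (convex_Icc 0 T')
    (f := fun j τ => x (m + j) τ ^ 2) (f' := fun j τ => 2 * F j τ) hgeo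
    (fun j τ hτ => by
      have := ((g.der (m + j) τ (hsub hτ)).mono hsub).fun_pow 2
      refine this.congr_deriv ?_
      simp only [hF]; ring) hFb
    (fun τ hτ => sumsq q (hb τ hτ) m) htI
  have hd' : HasDerivWithinAt (Y x m) (∑' j, 2 * F j t) (Ico 0 T) t := by
    refine HasDerivWithinAt.mono_of_mem_nhdsWithin hd ?_
    refine mem_of_superset (inter_mem_nhdsWithin (Ico 0 T) (Iio_mem_nhds ht'))
      (fun τ hτ => ⟨hτ.1.1, le_of_lt hτ.2⟩)
  refine ⟨_, hd', ?_⟩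
  have hY0 := Y_nonneg (x := x) m t
  set W := √(Y x m t) with hW
  have hW0 : 0 ≤ W := Real.sqrt_nonneg _
  have hxW : ∀ j, |x (m + j) t| ≤ W := fun j => g.abs_le_sqrt ht (by omega)
  -- the perturbation
  have hsF : Summable fun j => F j t := by
    refine Summable.of_norm_bounded hgeo fun j => ?_
    rw [Real.norm_eq_abs]
    have := hFb j t htI
    rw [abs_mul, abs_two] at this
    linarith [abs_nonneg (F j t)]
  have hfb : ∀ j, |x (m + j) t * f (m + j) t| ≤ ph lm 0 * x (m + j) t ^ 2 + W * ph lm (m + j) := by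
    intro j
    rw [abs_mul]
    have h1 := g.hf (m + j) t ht
    have h2 := ph_pos lm (m + j)
    calc |x (m + j) t| * |f (m + j) t|
        ≤ |x (m + j) t| * (ph lm 0 * |x (m + j) t| + ph lm (m + j)) := by gcongr
      _ = ph lm 0 * |x (m + j) t| ^ 2 + |x (m + j) t| * ph lm (m + j) := by ring
      _ ≤ _ := by rw [sq_abs]; gcongr; exact hxW j
  have hsf' : Summable fun j => ph lm 0 * x (m + j) t ^ 2 + W * ph lm (m + j) :=
    ((g.summ ht m).mul_left _).add ((phsum g.sq q m).1.mul_left _)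
  have hsf : Summable fun j => x (m + j) t * f (m + j) t :=
    Summable.of_norm_bounded hsf' fun j => by rw [Real.norm_eq_abs]; exact hfb j
  have hf0 : ∑' j, (ph lm 0 * x (m + j) t ^ 2 + W * ph lm (m + j)) ≤
      ph lm 0 * Y x m t + W * (2 * ph lm m) := by
    rw [((g.summ ht m).mul_left _).tsum_add ((phsum g.sq q m).1.mul_left _), tsum_mul_left,
      tsum_mul_left]
    have := (phsum g.sq q m).2
    rw [Y]
    gcongr
  have hf1 : |∑' j, x (m + j) t * f (m + j) t| ≤ ph lm 0 * Y x m t + W * (2 * ph lm m) := by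
    rw [abs_le]
    constructor
    · have h1 := hsf'.neg.tsum_le_tsum (fun j => (abs_le.1 (hfb j)).1) hsf
      rw [tsum_neg] at h1
      linarith
    · exact (hsf.tsum_le_tsum (fun j => (abs_le.1 (hfb j)).2) hsf').trans hf0
  -- the main part
  set V : ℕ → ℝ := fun j => x (m + j) t * vf3 L C ℓ B (fun i => x i t) (m + j) with hV
  have hsV : Summable V := by
    have : V = fun j => F j t - x (m + j) t * f (m + j) t := by
      ext j; simp only [hV, hF]; ring
    rw [this]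
    exact hsF.sub hsf
  have hsplit : ∑' j, F j t = ∑' j, V j + ∑' j, x (m + j) t * f (m + j) t := by
    rw [← hsV.tsum_add hsf]
    refine tsum_congr fun j => ?_
    simp only [hV, hF]; ring
  have hVs := g.Vsum ht m
  have hL0 : 0 ≤ ∑ i ∈ Finset.range m, L i := Finset.sum_nonneg fun i _ => (sLp q i).le
  have hSt : ∀ j, |x (m + j) t ^ 2 * ∑ i ∈ Finset.range m, L i * B i (m + j) * x i t -
      Sg L x m t * x (m + j) t ^ 2| ≤
        (∑ i ∈ Finset.range m, L i) * Real.exp (-(lm m)) * x (m + j) t ^ 2 := by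
    intro j
    have e : x (m + j) t ^ 2 * ∑ i ∈ Finset.range m, L i * B i (m + j) * x i t -
      Sg L x m t * x (m + j) t ^ 2 = (∑ i ∈ Finset.range m, L i * B i (m + j) * x i t -
        Sg L x m t) * x (m + j) t ^ 2 := by ring
    rw [e, abs_mul, abs_of_nonneg (sq_nonneg (x (m + j) t))]
    have h1 := g.strain ht (Nat.le_add_right m j)
    have h5 : Real.exp (-(lm (m + j))) ≤ Real.exp (-(lm m)) := by
      apply Real.exp_le_exp.2
      have := slmmono g.sq g.nm (Nat.le_add_right m j)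
      linarith
    gcongr
    refine h1.trans ?_
    gcongr
  have hsE : Summable fun j => x (m + j) t ^ 2 * ∑ i ∈ Finset.range m, L i * B i (m + j) * x i t -
      Sg L x m t * x (m + j) t ^ 2 :=
    Summable.of_norm_bounded ((g.summ ht m).mul_left _) fun j => by
      rw [Real.norm_eq_abs]; exact hSt j
  have hsS : Summable fun j => x (m + j) t ^ 2 * ∑ i ∈ Finset.range m, L i * B i (m + j) * x i t := by
    have h1 := hsE.add ((g.summ ht m).mul_left (Sg L x m t))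
    refine h1.congr fun j => ?_
    ring
  have hV1 : ∑' j, V j = -(∑' j, ℓ (m + j) * x (m + j) t ^ 2) + Fl L C (fun i => x i t) m +
      ∑' j, x (m + j) t ^ 2 * ∑ i ∈ Finset.range m, L i * B i (m + j) * x i t := by
    have hlim := hsV.hasSum.tendsto_sum_nat
    have h1 := hVs.hasSum.tendsto_sum_nat
    have h2 := hsS.hasSum.tendsto_sum_nat
    have hpow : Tendsto (fun k : ℕ => (5 * K ^ 3) * (1 / 2 : ℝ) ^ k) atTop (𝓝 0) := by
      have h3 := (tendsto_pow_atTop_nhds_zero_of_lt_one (r := (1 / 2 : ℝ)) (by norm_num)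
        (by norm_num)).const_mul (5 * K ^ 3)
      rwa [mul_zero] at h3
    have hLk : ∀ k, (L (m + k))⁻¹ ≤ (1 / 2) ^ k := fun k => (sLinv q (m + k)).trans
          (pow_le_pow_of_le_one (by norm_num) (by norm_num) (by omega))
    have h4 : Tendsto (fun k => Fl L C (fun i => x i t) (m + k)) atTop (𝓝 0) := by
      refine squeeze_zero_norm (fun k => ?_) hpow
      rw [Real.norm_eq_abs]
      refine (Flb q hK hh (m + k)).trans ?_
      have h5 := hLk k
      have h6 : K ^ 3 ≤ 5 * K ^ 3 := by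
        have : 0 ≤ K ^ 3 := by positivity
        linarith
      have h7 : 0 ≤ (L (m + k))⁻¹ := (inv_pos.2 (sLp q (m + k))).le
      gcongr
    have h5 : Tendsto (fun k => ∑ i ∈ Finset.range k, L (m + i) * x (m + i) t *
          ∑' l : ℕ, B (m + i) (m + k + l) * x (m + k + l) t ^ 2) atTop (𝓝 0) := by
      refine squeeze_zero_norm (fun k => ?_) hpow
      rw [Real.norm_eq_abs]
      have hYb := Yb q hK hh (m + k)
      have hU := Ub q hK hh m k
      calc |∑ i ∈ Finset.range k, L (m + i) * x (m + i) t *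
          ∑' l : ℕ, B (m + i) (m + k + l) * x (m + k + l) t ^ 2|
          ≤ ∑ i ∈ Finset.range k, L (m + i) * |x (m + i) t| *
              (1001 / 1000 * Y x (m + k) t) := by
            refine (Finset.abs_sum_le_sum_abs _ _).trans ?_
            refine Finset.sum_le_sum fun i hi => ?_
            have hi' := Finset.mem_range.1 hi
            have h1 := g.tsB ht (i := m + i) (m := m + k) (by omega)
            have hLp := sLp q (m + i)
            rw [abs_mul, abs_mul, abs_of_pos hLp, abs_of_nonneg h1.2.1]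
            have := h1.2.2
            gcongr
        _ = (∑ i ∈ Finset.range k, L (m + i) * |x (m + i) t|) *
              (1001 / 1000 * Y x (m + k) t) := by rw [Finset.sum_mul]
        _ ≤ (2 * K) * (1001 / 1000 * (2 * K ^ 2 * (1 / 2) ^ (m + k))) := by
            have := Y_nonneg (x := x) (m + k) t
            gcongr
        _ ≤ (2 * K) * (1001 / 1000 * (2 * K ^ 2 * (1 / 2) ^ k)) := by
            gcongr 2 * K * (1001 / 1000 * (2 * K ^ 2 * ?_))
            exact pow_le_pow_of_le_one (by norm_num) (by norm_num) (by omega)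
        _ = 4004 / 1000 * (K ^ 3 * (1 / 2) ^ k) := by ring
        _ ≤ 5 * (K ^ 3 * (1 / 2) ^ k) := by gcongr; norm_num
        _ = _ := by ring
    have h6 := (((h1.neg.add_const (Fl L C (fun i => x i t) m)).sub h4).add h2).sub h5
    have h7 := tendsto_nhds_unique hlim (h6.congr fun k => (g.part ht m k).symm)
    rw [h7]
    ring
  have hSY : |∑' j, x (m + j) t ^ 2 * ∑ i ∈ Finset.range m, L i * B i (m + j) * x i t -
      Sg L x m t * Y x m t| ≤ (∑ i ∈ Finset.range m, L i) * Real.exp (-(lm m)) * Y x m t := by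
    have e : ∑' j, x (m + j) t ^ 2 * ∑ i ∈ Finset.range m, L i * B i (m + j) * x i t -
      Sg L x m t * Y x m t = ∑' j, (x (m + j) t ^ 2 * ∑ i ∈ Finset.range m,
        L i * B i (m + j) * x i t - Sg L x m t * x (m + j) t ^ 2) := by
      rw [hsS.tsum_sub ((g.summ ht m).mul_left _), tsum_mul_left, Y]
    have h5 := (g.summ ht m).mul_left ((∑ i ∈ Finset.range m, L i) * Real.exp (-(lm m)))
    rw [e, Y, ← tsum_mul_left, abs_le]
    constructor
    · rw [← tsum_neg]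
      exact h5.neg.tsum_le_tsum (fun j => (abs_le.1 (hSt j)).1) hsE
    · exact hsE.tsum_le_tsum (fun j => (abs_le.1 (hSt j)).2) h5
  rw [tsum_mul_left, hsplit, hV1, Fl_src]
  have hr := rate g.sq q m
  have hrY : ((∑ i ∈ Finset.range m, L i) * Real.exp (-(lm m)) + ph lm 0) * Y x m t ≤
      e0 lm * Y x m t := by gcongr
  rw [abs_le] at hSY hf1 ⊢
  constructor <;> nlinarith [hSY.1, hSY.2, hf1.1, hf1.2]

lemma Ycont (g : Gd η lm L C ℓ B T x f) (m : ℕ) : ContinuousOn (Y x m) (Ico 0 T) :=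
  fun _ ht => (g.Yder m ht).choose_spec.1.continuousWithinAt

/-- the equation of one mode -/
lemma xder (g : Gd η lm L C ℓ B T x f) (n : ℕ) {t : ℝ} (ht : t ∈ Ioo 0 T) :
    ∃ v, HasDerivAt (x n) v t ∧
    |v - (Sg L x n t * x n t + src L C x n t - ℓ n * x n t - L n * √(Y x (n + 1) t) ^ 2)| ≤
      e0 lm * |x n t| + C n * L n * |x n t| * √(Y x (n + 1) t)
        + Real.exp (-(lm (n + 1) / 2)) * √(Y x (n + 1) t) ^ 2 + ph lm n := by
  have ht' : t ∈ Ico 0 T := ⟨ht.1.le, ht.2⟩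
  refine ⟨_, g.derivAt n ht, ?_⟩
  rw [Real.sq_sqrt (Y_nonneg (n + 1) t)]
  have q := g.nm
  have hLp := sLp q n
  have hC := q.C0 n
  have hY0 := Y_nonneg (x := x) (n + 1) t
  have hW0 := Real.sqrt_nonneg (Y x (n + 1) t)
  have h1 := g.strain ht' (le_refl n)
  have h2 := g.tsE ht' (Nat.lt_succ_self n)
  have h3 := g.abs_le_sqrt ht' (le_refl (n + 1))
  have h4 := g.hf n t ht'
  have h5 := rate g.sq q n
  have h6 := (Lexp g.sq q n).1
  have hx0 := abs_nonneg (x n t)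
  have e : vf3 L C ℓ B (fun m => x m t) n + f n t -
      (Sg L x n t * x n t + src L C x n t - ℓ n * x n t - L n * Y x (n + 1) t) =
      (∑ i ∈ Finset.range n, L i * B i n * x i t - Sg L x n t) * x n t
        - L n * C n * x n t * x (n + 1) t
        - L n * (∑' m : ℕ, B n (n + 1 + m) * x (n + 1 + m) t ^ 2 - Y x (n + 1) t) + f n t := by
    unfold vf3 src
    split_ifs <;> ring
  rw [e]
  have b1 : |(∑ i ∈ Finset.range n, L i * B i n * x i t - Sg L x n t) * x n t| ≤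
      (∑ i ∈ Finset.range n, L i) * Real.exp (-(lm n)) * |x n t| := by
    rw [abs_mul]
    gcongr
  have b2 : |L n * C n * x n t * x (n + 1) t| ≤ C n * L n * |x n t| * √(Y x (n + 1) t) := by
    rw [abs_mul, abs_mul, abs_mul, abs_of_pos hLp, abs_of_pos hC, mul_comm (L n)]
    gcongr
  have b3 : |L n * (∑' m : ℕ, B n (n + 1 + m) * x (n + 1 + m) t ^ 2 - Y x (n + 1) t)| ≤
      Real.exp (-(lm (n + 1) / 2)) * Y x (n + 1) t := by
    rw [abs_mul, abs_of_pos hLp]
    have h7 := Real.exp_pos (-(lm (n + 1) / 2))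
    calc L n * |∑' m : ℕ, B n (n + 1 + m) * x (n + 1 + m) t ^ 2 - Y x (n + 1) t|
        ≤ L n * (Real.exp (-(lm (n + 1))) * Y x (n + 1) t) := by gcongr
      _ = (L n * Real.exp (-(lm (n + 1)))) * Y x (n + 1) t := by ring
      _ ≤ Real.exp (-(lm (n + 1) / 2)) * Y x (n + 1) t := by
          gcongr
          linarith
  have b5 : ((∑ i ∈ Finset.range n, L i) * Real.exp (-(lm n)) + ph lm 0) * |x n t| ≤
      e0 lm * |x n t| := by gcongr
  rw [abs_le] at b1 b2 b3 h4 ⊢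
  constructor <;> linarith [b1.1, b1.2, b2.1, b2.2, b3.1, b3.2, h4.1, h4.2]

end Gd

/-- Task CH. -/
theorem t_CH : S_CH := by
  intro η lm L C ℓ B T x f hsq hnm hT hder hbdd hen hf h0 hn
  have g : Gd η lm L C ℓ B T x f := ⟨hsq, hnm, hT, hder, hbdd, hen, hf, h0, hn⟩
  have hsqrt : ∀ n, (fun s => √(Y x n s) ^ 2) = Y x n := by
    intro n
    ext s
    exact Real.sq_sqrt (Gd.Y_nonneg n s)
  refine
    { sq := hsq
      nm := hnm
      hT := hT
      cx := fun n => g.cont n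
      cR := fun n => (g.Ycont n).sqrt
      R0 := fun n t _ => Real.sqrt_nonneg _
      R1 := fun t ht => Real.sqrt_le_one.2 (g.Y_le_one ht 0)
      Rsq := ?_
      V0 := fun n t _ => tsum_nonneg fun j => mul_nonneg (hsq.ℓ_nonneg _) (sq_nonneg _)
      Vs := ?_
      Vb := fun n t ht Z hZ hs => (g.Vsum ht n).tsum_le_tsum hZ hs
      dR := ?_
      dx := fun n t ht => g.xder n ht
      h0 := h0
      hn := ?_
      bdd := hbdd }
  · intro n t ht
    rw [Real.sq_sqrt (Gd.Y_nonneg n t), Real.sq_sqrt (Gd.Y_nonneg (n + 1) t)]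
    exact g.Y_succ ht n
  · intro n t ht
    rw [(g.Vsum ht n).tsum_eq_zero_add, add_zero]
    congr 1
    refine tsum_congr fun j => ?_
    have e : n + (j + 1) = n + 1 + j := by ring
    rw [e]
  · intro n t ht
    obtain ⟨D, hD, hb⟩ := g.Yder n (⟨ht.1.le, ht.2⟩ : t ∈ Ico 0 T)
    refine ⟨D, ?_, ?_⟩
    · rw [hsqrt n]
      exact hD.hasDerivAt (Ico_mem_nhds ht.1 ht.2)
    · rw [Real.sq_sqrt (Gd.Y_nonneg n t)]
      exact hb
  · intro n
    have : Y x (n + 1) 0 = 0 := by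
      rw [Y]
      have : ∀ j, x (n + 1 + j) 0 ^ 2 = 0 := by
        intro j
        have e : n + 1 + j = (n + j) + 1 := by ring
        rw [e, hn, zero_pow (by norm_num)]
      simp only [this, tsum_zero]
    rw [this, Real.sqrt_zero]

end Pool.Agent.Y255.EJ
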